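import Pool.Agent.H.MP_c8f9b2_an.A

set_option autoImplicit false

namespace Pool.Agent.Results.MP_c8f9b2_an.Finite
open MeasureTheory Set

/-- `g` is the radial Laplacian of `f` in dimension `N`, for `r > 0` -/
def IsLap (N : ℕ) (f g : ℝ → ℝ) : Prop :=
  ∀ r, 0 < r → DifferentiableAt ℝ f r ∧
    HasDerivAt (fun s => s ^ (N - 1) * deriv f s) (r ^ (N - 1) * g r) r

theorem result (m : ℕ) (hm : 1 ≤ m) (w : ℕ → ℝ → ℝ)
    (hL : ∀ j < m, IsLap (2 * m) (w j) (w (j + 1)))
    (he : ∀ r, 0 < r → w m r = - Real.exp (w 0 r))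
    (hc : ContinuousOn (w 0) (Ici 0))
    (E : Type*) [NormedAddCommGroup E] [InnerProductSpace ℝ E] [FiniteDimensional ℝ E]
    [MeasurableSpace E] [BorelSpace E] (hE : Module.finrank ℝ E = 2 * m) :
    Integrable (fun x : E => Real.exp (w 0 ‖x‖)) volume := by
  obtain ⟨n, rfl⟩ : ∃ n, m = n + 1 := ⟨m - 1, by omega⟩
  have e : 2 * (n + 1) - 1 = 2 * n + 1 := by omega
  have : Nontrivial E := Module.nontrivial_of_finrank_pos (R := ℝ) (by omega)
  rw [integrable_fun_norm_addHaar volume (f := fun r => Real.exp (w 0 r))]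
  simp only [hE, smul_eq_mul]
  unfold IsLap at hL
  rw [e] at hL ⊢
  refine Pool.Agent.H.MP_c8f9b2_an.main (p := fun j s => s ^ (2 * n + 1) * deriv (w j) s)
    (fun j hj r hr => ?_) (fun j hj r hr => (hL j (by omega) r hr).2) he hc
  rw [mul_div_cancel_left₀ _ (pow_pos hr _).ne']
  exact (hL j (by omega) r hr).1.hasDerivAt

end Pool.Agent.Results.MP_c8f9b2_an.Finite
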